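import Pool.Agent.helper81.CX.Spec2

/-!
# Project cx, row DEC: even and odd parts
-/

set_option autoImplicit false

open MeasureTheory Set Filter Topology
open scoped ENNReal
open Pool.Agent.helper81.CW

namespace Pool.Agent.CX

theorem DEC_neg {F : Type*} [NormedAddCommGroup F] [NormedSpace ℝ F] (hG1 : G1_stmt) (n : ℕ) (f : E n → F) :
    ∫ x, f (-x) ∂(gm n) = ∫ x, f x ∂(gm n) :=
  MeasurePreserving.integral_comp (f := fun x : E n => -x) ⟨measurable_neg, (hG1 n).2⟩
    (MeasurableEquiv.neg (E n)).measurableEmbedding f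

theorem DEC_odd {F : Type*} [NormedAddCommGroup F] [NormedSpace ℝ F] (hG1 : G1_stmt) (n : ℕ) (f : E n → F)
    (hf : ∀ x, f (-x) = -f x) : ∫ x, f x ∂(gm n) = 0 := by
  have h := DEC_neg hG1 n f
  simp only [hf, integral_neg] at h
  have h2 : (2 : ℝ) • ∫ x, f x ∂(gm n) = 0 := by
    rw [two_smul]
    nth_rewrite 1 [← h]
    simp
  simpa using h2

theorem DEC_integ (hG1 : G1_stmt) {n : ℕ} {f : E n → E n} (hf : BM f) : Integrable f (gm n) := by
  haveI := (hG1 n).1
  exact Integrable.of_bound hf.1.aestronglyMeasurable 2 (Eventually.of_forall hf.2)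

theorem DEC_inn (hG1 : G1_stmt) {n : ℕ} {f g : E n → E n} (hf : BM f) (hg : BM g) :
    Integrable (fun x => inner ℝ (f x) (g x)) (gm n) := by
  haveI := (hG1 n).1
  refine Integrable.of_bound (hf.1.inner hg.1).aestronglyMeasurable 4 (Eventually.of_forall fun x => ?_)
  have h1 := norm_inner_le_norm (𝕜 := ℝ) (f x) (g x)
  have h2 := hf.2 x
  have h3 := hg.2 x
  nlinarith [norm_nonneg (f x), norm_nonneg (g x)]

theorem DEC_mixm {n : ℕ} (t : ℝ) (x : E n) : Measurable (fun z : E n => mix t x z) := by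
  unfold mix
  fun_prop

theorem DEC_mixi (hG1 : G1_stmt) {n : ℕ} {g : E n → E n} (hg : BM g) (t : ℝ) (x : E n) :
    Integrable (fun z => g (mix t x z)) (gm n) := by
  haveI := (hG1 n).1
  exact Integrable.of_bound (hg.1.comp (DEC_mixm t x)).aestronglyMeasurable 2 (Eventually.of_forall fun z => hg.2 _)

theorem DEC_const {n : ℕ} (m : E n) (hm : ‖m‖ ≤ 2) : BM (fun _ : E n => m) := ⟨measurable_const, fun _ => hm⟩

theorem DEC_addl (hG1 : G1_stmt) (hCRB : CRB_stmt) {n : ℕ} {f f1 f2 g : E n → E n} {t : ℝ} (hf : BM f) (hf1 : BM f1)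
    (hf2 : BM f2) (hg : BM g) (ht : |t| ≤ 1) (he : ∀ x, f x = f1 x + f2 x) :
    CR f g t = CR f1 g t + CR f2 g t := by
  rw [(hCRB n f g t hf hg ht).2.1, (hCRB n f1 g t hf1 hg ht).2.1, (hCRB n f2 g t hf2 hg ht).2.1]
  have hP := (hCRB n f g t hf hg ht).1
  rw [← integral_add (DEC_inn hG1 hf1 hP) (DEC_inn hG1 hf2 hP)]
  refine integral_congr_ae (Eventually.of_forall fun x => ?_)
  simp only
  rw [he, inner_add_left]

theorem DEC_addr (hG1 : G1_stmt) (hCRB : CRB_stmt) {n : ℕ} {f g g1 g2 : E n → E n} {t : ℝ} (hf : BM f) (hg : BM g)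
    (hg1 : BM g1) (hg2 : BM g2) (ht : |t| ≤ 1) (he : ∀ x, g x = g1 x + g2 x) :
    CR f g t = CR f g1 t + CR f g2 t := by
  rw [(hCRB n f g t hf hg ht).2.1, (hCRB n f g1 t hf hg1 ht).2.1, (hCRB n f g2 t hf hg2 ht).2.1]
  have hP1 := (hCRB n f g1 t hf hg1 ht).1
  have hP2 := (hCRB n f g2 t hf hg2 ht).1
  rw [← integral_add (DEC_inn hG1 hf hP1) (DEC_inn hG1 hf hP2)]
  refine integral_congr_ae (Eventually.of_forall fun x => ?_)
  simp only
  rw [← inner_add_right]
  congr 1
  unfold PP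
  rw [← integral_add (DEC_mixi hG1 hg1 t x) (DEC_mixi hG1 hg2 t x)]
  refine integral_congr_ae (Eventually.of_forall fun z => ?_)
  exact he _

theorem DEC_mixn {n : ℕ} (t : ℝ) (x z : E n) : mix t (-x) (-z) = -mix t x z := by
  unfold mix
  simp only [smul_neg, neg_add]

theorem DEC_mixt {n : ℕ} (t : ℝ) (x z : E n) : mix (-t) x (-z) = -mix t x z := by
  unfold mix
  simp only [smul_neg, neg_smul, neg_add, neg_sq]

/-- mixed terms are zero -/
theorem DEC_zero (hG1 : G1_stmt) {n : ℕ} (f g : E n → E n) (t : ℝ)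
    (h : ∀ x w, inner ℝ (f (-x)) (g (-w)) = -(inner ℝ (f x) (g w) : ℝ)) : CR f g t = 0 := by
  unfold CR
  refine DEC_odd hG1 n _ fun x => ?_
  rw [← DEC_neg hG1 n (fun z => inner ℝ (f (-x)) (g (mix t (-x) z))), ← integral_neg]
  refine integral_congr_ae (Eventually.of_forall fun z => ?_)
  simp only
  rw [DEC_mixn, h]

theorem DEC_flip (hG1 : G1_stmt) {n : ℕ} (f g : E n → E n) (t : ℝ) :
    CR f g (-t) = CR f (fun x => g (-x)) t := by
  unfold CR
  refine integral_congr_ae (Eventually.of_forall fun x => ?_)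
  simp only
  rw [← DEC_neg hG1 n (fun z => inner ℝ (f x) (g (mix (-t) x z)))]
  refine integral_congr_ae (Eventually.of_forall fun z => ?_)
  simp only
  rw [DEC_mixt]

theorem DEC_cl (hG1 : G1_stmt) (hCRB : CRB_stmt) {n : ℕ} (m : E n) (hm : ‖m‖ ≤ 2) {g : E n → E n} {t : ℝ} (hg : BM g)
    (ht : |t| ≤ 1) : CR (fun _ => m) g t = inner ℝ m (∫ x, g x ∂(gm n)) := by
  obtain ⟨h1, h2, h3, -⟩ := hCRB n (fun _ => m) g t (DEC_const m hm) hg ht
  rw [h2, ← h3]
  exact integral_inner (DEC_integ hG1 h1) m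

theorem DEC_cr (hG1 : G1_stmt) {n : ℕ} (m : E n) {f : E n → E n} {t : ℝ} (hf : BM f)
    (h0 : ∫ x, f x ∂(gm n) = 0) : CR f (fun _ => m) t = 0 := by
  haveI := (hG1 n).1
  unfold CR
  simp only [integral_const, probReal_univ, one_smul]
  have e : ∀ x, (inner ℝ (f x) m : ℝ) = inner ℝ m (f x) := fun x => real_inner_comm _ _
  simp only [e]
  rw [integral_inner (DEC_integ hG1 hf) m, h0, inner_zero_right]

theorem DEC_nrm (n : ℕ) : Integrable (fun x : E n => ‖x‖) (gm n) := by
  have h0 : Integrable (fun x : E n => Real.exp (-(1 / 4) * ‖x‖ ^ 2)) := by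
    have h := (GaussianFourier.integrable_cexp_neg_mul_sq_norm_add (V := E n) (b := ((1 / 4 : ℝ) : ℂ))
      (by simp) 0 0).norm
    refine h.congr (Eventually.of_forall fun x => ?_)
    simp only
    rw [Complex.norm_exp]
    congr 1
    have e : (-((1 / 4 : ℝ) : ℂ) * (‖x‖ : ℂ) ^ 2 + 0 * (inner ℝ (0 : E n) x : ℝ)) =
        ((-(1 / 4) * ‖x‖ ^ 2 : ℝ) : ℂ) := by
      push_cast
      ring
    rw [e, Complex.ofReal_re]
  unfold gm
  rw [integrable_withDensity_iff (by fun_prop) (Eventually.of_forall fun x => ENNReal.ofReal_lt_top)]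
  refine Integrable.mono' (h0.const_mul (1 / Real.sqrt (2 * Real.pi) ^ n)) (by fun_prop)
    (Eventually.of_forall fun x => ?_)
  have hs : 0 < Real.sqrt (2 * Real.pi) ^ n := by positivity
  rw [ENNReal.toReal_ofReal (by positivity), Real.norm_eq_abs, abs_of_nonneg (by positivity)]
  have h1 : ‖x‖ ≤ Real.exp (1 / 4 * ‖x‖ ^ 2) := by
    have h2 := Real.add_one_le_exp (1 / 4 * ‖x‖ ^ 2)
    nlinarith [sq_nonneg (1 - ‖x‖ / 2)]
  have h3 : Real.exp (-‖x‖ ^ 2 / 2) = Real.exp (-(1 / 4) * ‖x‖ ^ 2) * Real.exp (-(1 / 4 * ‖x‖ ^ 2)) := by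
    rw [← Real.exp_add]
    congr 1
    ring
  have h4 : ‖x‖ * Real.exp (-(1 / 4 * ‖x‖ ^ 2)) ≤ 1 := by
    rw [Real.exp_neg, ← div_eq_mul_inv, div_le_one (Real.exp_pos _)]
    exact h1
  rw [h3]
  calc ‖x‖ * (Real.exp (-(1 / 4) * ‖x‖ ^ 2) * Real.exp (-(1 / 4 * ‖x‖ ^ 2)) / Real.sqrt (2 * Real.pi) ^ n)
      = (‖x‖ * Real.exp (-(1 / 4 * ‖x‖ ^ 2))) *
        (1 / Real.sqrt (2 * Real.pi) ^ n * Real.exp (-(1 / 4) * ‖x‖ ^ 2)) := by ring
    _ ≤ 1 * (1 / Real.sqrt (2 * Real.pi) ^ n * Real.exp (-(1 / 4) * ‖x‖ ^ 2)) :=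
        mul_le_mul_of_nonneg_right h4 (by positivity)
    _ = _ := one_mul _

theorem DEC_innx {n : ℕ} {f : E n → E n} (hf : BM f) : Integrable (fun x => inner ℝ (f x) x) (gm n) := by
  refine Integrable.mono' ((DEC_nrm n).const_mul 2) (hf.1.inner measurable_id).aestronglyMeasurable
    (Eventually.of_forall fun x => ?_)
  refine (norm_inner_le_norm (𝕜 := ℝ) (f x) x).trans ?_
  exact mul_le_mul_of_nonneg_right (hf.2 x) (norm_nonneg _)

theorem DEC (hG1 : G1_stmt) (hCRB : CRB_stmt) : DEC_stmt := by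
  intro n y hy hy1 hyh
  haveI := (hG1 n).1
  set m : E n := ∫ x, y x ∂(gm n) with hm
  have hm1 : ‖m‖ ≤ 1 := by
    have h := norm_integral_le_of_norm_le_const (μ := gm n) (Eventually.of_forall hy1)
    simpa using h
  set yo : E n → E n := fun x => (1 / 2 : ℝ) • (y x - y (-x)) with hyo
  set e : E n → E n := fun x => (1 / 2 : ℝ) • (y x + y (-x)) with he
  set ye : E n → E n := fun x => e x - m with hye
  have hyn : Measurable fun x => y (-x) := hy.comp measurable_neg
  have hyB : BM y := ⟨hy, fun x => (hy1 x).trans (by norm_num)⟩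
  have hynB : BM (fun x => y (-x)) := ⟨hyn, fun x => (hy1 _).trans (by norm_num)⟩
  have hyo1 : ∀ x, ‖yo x‖ ≤ 1 := by
    intro x
    rw [hyo]
    simp only
    rw [norm_smul, Real.norm_eq_abs, abs_of_pos (by norm_num : (0 : ℝ) < 1 / 2)]
    have := norm_sub_le (y x) (y (-x))
    have h1 := hy1 x
    have h2 := hy1 (-x)
    linarith
  have he1 : ∀ x, ‖e x‖ ≤ 1 := by
    intro x
    rw [he]
    simp only
    rw [norm_smul, Real.norm_eq_abs, abs_of_pos (by norm_num : (0 : ℝ) < 1 / 2)]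
    have := norm_add_le (y x) (y (-x))
    have h1 := hy1 x
    have h2 := hy1 (-x)
    linarith
  have hyoB : BM yo := ⟨(hy.sub hyn).const_smul (1 / 2 : ℝ), fun x => (hyo1 x).trans (by norm_num)⟩
  have heB : BM e := ⟨(hy.add hyn).const_smul (1 / 2 : ℝ), fun x => (he1 x).trans (by norm_num)⟩
  have hyeB : BM ye := ⟨heB.1.sub_const _, fun x => by
    have := norm_sub_le (e x) m
    have h1 := he1 x
    show ‖e x - m‖ ≤ 2
    linarith⟩
  have hmB := DEC_const m (hm1.trans (by norm_num))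
  have hyoo : ∀ x, yo (-x) = - yo x := by
    intro x
    rw [hyo]
    simp only
    rw [neg_neg, ← smul_neg, neg_sub]
  have hee : ∀ x, e (-x) = e x := by
    intro x
    rw [he]
    simp only
    rw [neg_neg, add_comm]
  have hye0 : ∀ x, ye (-x) = ye x := by
    intro x
    show e (-x) - m = e x - m
    rw [hee]
  have hme : ∫ x, e x ∂(gm n) = m := by
    rw [he]
    simp only
    rw [integral_smul, integral_add (DEC_integ hG1 hyB) (DEC_integ hG1 hynB), DEC_neg hG1 n y, ← hm, ← two_smul ℝ m,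
      smul_smul]
    norm_num
  have hmye : ∫ x, ye x ∂(gm n) = 0 := by
    rw [hye]
    simp only
    rw [integral_sub (DEC_integ hG1 heB) (integrable_const m), hme]
    simp
  have hEV : EV ye := by
    refine ⟨hyeB, hye0, fun x t ht => ?_, hmye⟩
    show (1 / 2 : ℝ) • (y (t • x) + y (-(t • x))) - m = (1 / 2 : ℝ) • (y x + y (-x)) - m
    rw [← smul_neg, hyh x t ht, hyh (-x) t ht]
  have hdec : ∀ x, y x = yo x + e x := by
    intro x
    rw [hyo, he]
    simp only
    rw [← smul_add]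
    have : y x - y (-x) + (y x + y (-x)) = (2 : ℝ) • y x := by
      rw [two_smul]
      abel
    rw [this, smul_smul]
    norm_num
  have hdece : ∀ x, e x = ye x + m := by
    intro x
    show e x = e x - m + m
    rw [sub_add_cancel]
  refine ⟨yo, ye, m, rfl, hyoB, hyoo, hEV, fun x => ?_, ?_, fun t ht => ?_, fun g t hg hge ht => ?_, ?_⟩
  · rw [hdec x, hdece x, add_assoc]
  · -- the norms
    have h1 : ∀ x, ‖y x‖ ^ 2 = ((inner ℝ (yo x) (yo x) : ℝ) + inner ℝ (ye x) (ye x)) +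
        (2 * (inner ℝ (yo x) (e x) : ℝ) + (2 * (inner ℝ m (ye x) : ℝ) + ‖m‖ ^ 2)) := by
      intro x
      rw [← real_inner_self_eq_norm_sq, ← real_inner_self_eq_norm_sq, hdec x]
      have e2 : (inner ℝ (e x) (e x) : ℝ) = inner ℝ (ye x) (ye x) + 2 * inner ℝ m (ye x) + inner ℝ m m := by
        rw [hdece x, inner_add_left, inner_add_right, inner_add_right, real_inner_comm m (ye x)]
        ring
      rw [inner_add_left, inner_add_right, inner_add_right, e2, real_inner_comm (yo x) (e x)]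
      ring
    have hz1 : ∫ x, (inner ℝ (yo x) (e x) : ℝ) ∂(gm n) = 0 := by
      refine DEC_odd hG1 n _ fun x => ?_
      rw [hyoo, hee, inner_neg_left]
    have hz2 : ∫ x, (inner ℝ m (ye x) : ℝ) ∂(gm n) = 0 := by
      rw [integral_inner (DEC_integ hG1 hyeB) m, hmye, inner_zero_right]
    have i1 := DEC_inn hG1 hyoB hyoB
    have i2 := DEC_inn hG1 hyeB hyeB
    have i3 := DEC_inn hG1 hyoB heB
    have i4 := DEC_inn hG1 hmB hyeB
    simp only [h1]
    have j1 : Integrable (fun x => (inner ℝ (yo x) (yo x) : ℝ) + inner ℝ (ye x) (ye x)) (gm n) := i1.add i2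
    have j2 : Integrable (fun x => 2 * (inner ℝ m (ye x) : ℝ) + ‖m‖ ^ 2) (gm n) :=
      (i4.const_mul 2).add (integrable_const _)
    have j3 : Integrable (fun x => 2 * (inner ℝ (yo x) (e x) : ℝ) + (2 * (inner ℝ m (ye x) : ℝ) + ‖m‖ ^ 2)) (gm n) :=
      (i3.const_mul 2).add j2
    rw [integral_add j1 j3, integral_add i1 i2, integral_add (i3.const_mul 2) j2,
      integral_add (i4.const_mul 2) (integrable_const _), integral_const_mul, integral_const_mul, hz1, hz2]
    simp only [real_inner_self_eq_norm_sq, integral_const, probReal_univ, one_smul]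
    ring
  · -- correlations at `-t`
    have ht' : |-t| ≤ 1 := by rwa [abs_neg]
    have a1 := DEC_addl hG1 hCRB hyB hyoB heB hyB ht' hdec
    have a2 := DEC_addr hG1 hCRB hyoB hyB hyoB heB ht' hdec
    have a3 := DEC_addr hG1 hCRB heB hyB hyoB heB ht' hdec
    have a4 : CR yo e (-t) = 0 := DEC_zero hG1 _ _ _ fun x w => by rw [hyoo, hee, inner_neg_left]
    have a5 : CR e yo (-t) = 0 := DEC_zero hG1 _ _ _ fun x w => by rw [hyoo, hee, inner_neg_right]
    have a6 : CR yo yo (-t) = - CR yo yo t := by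
      rw [DEC_flip hG1]
      unfold CR
      rw [← integral_neg]
      refine integral_congr_ae (Eventually.of_forall fun x => ?_)
      simp only
      rw [← integral_neg]
      refine integral_congr_ae (Eventually.of_forall fun z => ?_)
      simp only
      rw [hyoo, inner_neg_right]
    have a7 : CR e e (-t) = CR e e t := by
      rw [DEC_flip hG1]
      congr 1
      funext x
      exact hee x
    have a8 := DEC_addl hG1 hCRB heB hyeB hmB heB ht hdece
    have a9 := DEC_addr hG1 hCRB hyeB heB hyeB hmB ht hdece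
    have a10 := DEC_cr hG1 m (t := t) hyeB hmye
    have a11 := DEC_cl hG1 hCRB m (hm1.trans (by norm_num)) heB ht
    rw [hme, real_inner_self_eq_norm_sq] at a11
    rw [a1, a2, a3, a4, a5, a6, a7, a8, a9, a10, a11]
    ring
  · have a1 := DEC_addl hG1 hCRB hyB hyoB heB hg ht hdec
    have a2 := DEC_addl hG1 hCRB heB hyeB hmB hg ht hdece
    have a3 : CR yo g t = 0 := DEC_zero hG1 _ _ _ fun x w => by rw [hyoo, hge, inner_neg_left]
    have a4 := DEC_cl hG1 hCRB m (hm1.trans (by norm_num)) hg ht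
    rw [a1, a2, a3, a4]
    ring
  · have h1 : ∀ x, (inner ℝ (y x) x : ℝ) = inner ℝ (yo x) x + inner ℝ (e x) x := by
      intro x
      nth_rewrite 1 [hdec x]
      rw [inner_add_left]
    have hz : ∫ x, (inner ℝ (e x) x : ℝ) ∂(gm n) = 0 := by
      refine DEC_odd hG1 n _ fun x => ?_
      rw [hee, inner_neg_right]
    simp only [h1]
    rw [integral_add (DEC_innx hyoB) (DEC_innx heB), hz, add_zero]

end Pool.Agent.CX
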